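import Pool.Agent.H99.Quintic.Final

/-! Quintic surfaces over number fields: degree five points which do not arise from lines. -/

namespace Pool.Agent.Results.MP_396782_nt.QuinticOffLines

open MvPolynomial

/-- For every number field `k` and every nonzero polynomial `Φ` on the space of quintic forms in
four variables there is a quintic form `F` with `Φ F ≠ 0` which defines a smooth surface on which
the points of degree five that do not arise from a line are Zariski dense. -/
theorem result (k : Type*) [Field k] [NumberField k]
    (Φ : MvPolynomial {m : Fin 4 →₀ ℕ // m.degree = 5} k) (hΦ : Φ ≠ 0) :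
    ∃ F : MvPolynomial (Fin 4) k, F.IsHomogeneous 5 ∧ Quintic99.IsSmooth k F ∧
      eval (fun m : {m : Fin 4 →₀ ℕ // m.degree = 5} => coeff m.1 F) Φ ≠ 0 ∧
      Quintic99.DenseOffLines k F 5 :=
  Quintic99.main k Φ hΦ

end Pool.Agent.Results.MP_396782_nt.QuinticOffLines
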